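import Pool.Agent.H.MP_ef6db9_lc.Proof

/-!
# `R(⊓,;)` is not finitely axiomatisable

The definitions are in `Pool/Agent/H/MP_ef6db9_lc/Defs.lean`, the proof in
`Pool/Agent/H/MP_ef6db9_lc/Proof.lean`.
-/

set_option autoImplicit false

namespace Pool.Agent.Results.MP_ef6db9_lc.NotFinitelyAxiomatisable

universe u w

/-- The class `R(⊓,;)` of representable `(⊓,;)`-structures is not finitely axiomatisable. -/
theorem result : ¬ Pool.Agent.H.MP_ef6db9_lc.FinitelyAxiomatisable.{u, w} :=
  Pool.Agent.H.MP_ef6db9_lc.not_finitelyAxiomatisable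

end Pool.Agent.Results.MP_ef6db9_lc.NotFinitelyAxiomatisable
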